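import Mathlib

/-! # MP_4291f1_lc: rigidity of G-circulants and the exponent of matrix multiplication.
Common definitions. -/

set_option autoImplicit false

namespace Pool.Agent.Helper63.RC

open Matrix Module

/-- The G-circulant matrix of `f`: the entry at `(g, h)` is `f (g * h⁻¹)`. -/
def gcirc {G : Type*} [Group G] (f : G → ℂ) : Matrix G G ℂ :=
  Matrix.of fun g h => f (g * h⁻¹)

/-- `R` products of linear forms suffice to compute the product of two `d × d` matrices
(a bilinear algorithm of length `R`; the tensor rank of matrix multiplication is at most `R`). -/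
def MMAlg (d R : ℕ) : Prop :=
  ∃ α β γ : Fin R → Matrix (Fin d) (Fin d) ℂ, ∀ X Y : Matrix (Fin d) (Fin d) ℂ,
    X * Y = ∑ k, ((α k * X).trace * (β k * Y).trace) • γ k

/-- The tensor rank of the multiplication of `d × d` matrices over `ℂ`. -/
noncomputable def mmRank (d : ℕ) : ℕ := sInf {R | MMAlg d R}

/-- The exponent of matrix multiplication over `ℂ`. -/
noncomputable def omega : ℝ :=
  sInf {τ : ℝ | ∃ C : ℝ, ∀ d : ℕ, 1 ≤ d → (mmRank d : ℝ) ≤ C * (d : ℝ) ^ τ}

/-- The bilinear map `B` is computed by `R` products of linear forms. -/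
def HasRank {X Y Z : Type*} [AddCommGroup X] [Module ℂ X] [AddCommGroup Y] [Module ℂ Y]
    [AddCommGroup Z] [Module ℂ Z] (B : X → Y → Z) (R : ℕ) : Prop :=
  ∃ (α : Fin R → X →ₗ[ℂ] ℂ) (β : Fin R → Y →ₗ[ℂ] ℂ) (γ : Fin R → Z),
    ∀ x y, B x y = ∑ k, (α k x * β k y) • γ k

/-- The simultaneous (independent) products of `p × q` by `q × r` matrices, one for each
element of `ι`, are computed by `R` products of linear forms. -/
def DS (ι p q r : Type) [Fintype q] (R : ℕ) : Prop :=
  HasRank (fun (X : ι → Matrix p q ℂ) (Y : ι → Matrix q r ℂ) => fun m => X m * Y m) R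

/-- The multiplication `A × W → A / U` of the algebra `A` is computed by `s` products of linear
forms (`W`, `U` subspaces of `A`). -/
def Cx {A : Type*} [Ring A] [Algebra ℂ A] (W U : Submodule ℂ A) (s : ℕ) : Prop :=
  ∃ (α β : Fin s → A →ₗ[ℂ] ℂ) (γ : Fin s → A),
    ∀ f, ∀ x ∈ W, f * x - ∑ k, (α k f * β k x) • γ k ∈ U

/-- closed under multiplication from the left -/
def LeftClosed {A : Type*} [Ring A] [Algebra ℂ A] (I : Submodule ℂ A) : Prop :=
  ∀ a : A, ∀ x ∈ I, a * x ∈ I

end Pool.Agent.Helper63.RC
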