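import Mathlib
import Pool.Agent.Helper63.RC.Defs

/-! RC-10, RC-11: calculus of bilinear complexity and the composition theorem. -/

set_option autoImplicit false

namespace Pool.Agent.Helper63.RC

open Matrix Module

section
variable {X Y Z X' Y' Z' : Type*} [AddCommGroup X] [Module ℂ X] [AddCommGroup Y] [Module ℂ Y]
  [AddCommGroup Z] [Module ℂ Z] [AddCommGroup X'] [Module ℂ X'] [AddCommGroup Y'] [Module ℂ Y']
  [AddCommGroup Z'] [Module ℂ Z']

theorem hasRank_of_fintype {B : X → Y → Z} {κ : Type} [Fintype κ] (α : κ → X →ₗ[ℂ] ℂ)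
    (β : κ → Y →ₗ[ℂ] ℂ) (γ : κ → Z) (h : ∀ x y, B x y = ∑ k, (α k x * β k y) • γ k) {R : ℕ}
    (hR : Fintype.card κ ≤ R) : HasRank B R := by
  classical
  let e := Fintype.equivFin κ
  refine ⟨fun k => if hk : k.1 < Fintype.card κ then α (e.symm ⟨k.1, hk⟩) else 0,
    fun k => if hk : k.1 < Fintype.card κ then β (e.symm ⟨k.1, hk⟩) else 0,
    fun k => if hk : k.1 < Fintype.card κ then γ (e.symm ⟨k.1, hk⟩) else 0, fun x y => ?_⟩
  rw [h x y]
  refine Fintype.sum_of_injective (fun t : κ => Fin.castLE hR (e t)) ?_ _ _ ?_ ?_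
  · intro a b hab
    have : (e a).1 = (e b).1 := by simpa [Fin.ext_iff] using hab
    exact e.injective (Fin.ext this)
  · intro k hk
    have hk' : ¬ k.1 < Fintype.card κ := by
      intro hlt
      exact hk ⟨e.symm ⟨k.1, hlt⟩, by simp⟩
    simp [hk']
  · intro t
    simp

theorem HasRank.comp {B : X → Y → Z} {R : ℕ} (h : HasRank B R) (F : X' →ₗ[ℂ] X)
    (H : Y' →ₗ[ℂ] Y) (K : Z →ₗ[ℂ] Z') : HasRank (fun x y => K (B (F x) (H y))) R := by
  obtain ⟨α, β, γ, h⟩ := h
  refine ⟨fun k => (α k).comp F, fun k => (β k).comp H, fun k => K (γ k), fun x y => ?_⟩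
  simp [h, map_sum]

theorem HasRank.mono {B : X → Y → Z} {R R' : ℕ} (h : HasRank B R) (hR : R ≤ R') :
    HasRank B R' := by
  obtain ⟨α, β, γ, h⟩ := h
  exact hasRank_of_fintype α β γ h (by simpa using hR)

end

theorem rc10_mono {ι p q r ι' p' q' r' : Type} [Fintype q] [Fintype q'] {R R' : ℕ}
    (h : DS ι p q r R) (hι : Nonempty (ι' ↪ ι)) (hp : Nonempty (p' ↪ p)) (hq : Nonempty (q' ↪ q))
    (hr : Nonempty (r' ↪ r)) (hR : R ≤ R') : DS ι' p' q' r' R' := by
  classical
  obtain ⟨eι⟩ := hι
  obtain ⟨ep⟩ := hp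
  obtain ⟨eq⟩ := hq
  obtain ⟨er⟩ := hr
  -- zero padding
  let padX : (ι' → Matrix p' q' ℂ) →ₗ[ℂ] (ι → Matrix p q ℂ) :=
    { toFun := fun A m => Matrix.of fun i j =>
        Function.extend (fun t : ι' × p' × q' => (eι t.1, ep t.2.1, eq t.2.2))
          (fun t => A t.1 t.2.1 t.2.2) 0 (m, i, j)
      map_add' := by
        intro A B
        funext m
        ext i j
        simp only [Matrix.of_apply, Pi.add_apply, Matrix.add_apply]
        by_cases ht : ∃ t : ι' × p' × q', (eι t.1, ep t.2.1, eq t.2.2) = (m, i, j)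
        · simp only [Function.extend_def, dif_pos ht]
        · simp only [Function.extend_def, dif_neg ht]
          simp
      map_smul' := by
        intro c A
        funext m
        ext i j
        simp only [Matrix.of_apply, Pi.smul_apply, Matrix.smul_apply, RingHom.id_apply]
        by_cases ht : ∃ t : ι' × p' × q', (eι t.1, ep t.2.1, eq t.2.2) = (m, i, j)
        · simp only [Function.extend_def, dif_pos ht]
        · simp only [Function.extend_def, dif_neg ht]
          simp }
  let padY : (ι' → Matrix q' r' ℂ) →ₗ[ℂ] (ι → Matrix q r ℂ) :=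
    { toFun := fun A m => Matrix.of fun i j =>
        Function.extend (fun t : ι' × q' × r' => (eι t.1, eq t.2.1, er t.2.2))
          (fun t => A t.1 t.2.1 t.2.2) 0 (m, i, j)
      map_add' := by
        intro A B
        funext m
        ext i j
        simp only [Matrix.of_apply, Pi.add_apply, Matrix.add_apply]
        by_cases ht : ∃ t : ι' × q' × r', (eι t.1, eq t.2.1, er t.2.2) = (m, i, j)
        · simp only [Function.extend_def, dif_pos ht]
        · simp only [Function.extend_def, dif_neg ht]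
          simp
      map_smul' := by
        intro c A
        funext m
        ext i j
        simp only [Matrix.of_apply, Pi.smul_apply, Matrix.smul_apply, RingHom.id_apply]
        by_cases ht : ∃ t : ι' × q' × r', (eι t.1, eq t.2.1, er t.2.2) = (m, i, j)
        · simp only [Function.extend_def, dif_pos ht]
        · simp only [Function.extend_def, dif_neg ht]
          simp }
  let res : (ι → Matrix p r ℂ) →ₗ[ℂ] (ι' → Matrix p' r' ℂ) :=
    { toFun := fun A m => Matrix.of fun i j => A (eι m) (ep i) (er j)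
      map_add' := fun _ _ => rfl
      map_smul' := fun _ _ => rfl }
  have hinjX : Function.Injective
      (fun t : ι' × p' × q' => ((eι t.1, ep t.2.1, eq t.2.2) : ι × p × q)) := by
    rintro ⟨a, b, c⟩ ⟨a', b', c'⟩ hab
    simp only [Prod.mk.injEq, EmbeddingLike.apply_eq_iff_eq] at hab
    obtain ⟨rfl, rfl, rfl⟩ := hab
    rfl
  have hinjY : Function.Injective
      (fun t : ι' × q' × r' => ((eι t.1, eq t.2.1, er t.2.2) : ι × q × r)) := by
    rintro ⟨a, b, c⟩ ⟨a', b', c'⟩ hab
    simp only [Prod.mk.injEq, EmbeddingLike.apply_eq_iff_eq] at hab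
    obtain ⟨rfl, rfl, rfl⟩ := hab
    rfl
  have hX : ∀ A m i j, padX A (eι m) (ep i) (eq j) = A m i j := by
    intro A m i j
    exact hinjX.extend_apply (fun t : ι' × p' × q' => A t.1 t.2.1 t.2.2) 0 (m, i, j)
  have hY : ∀ A m i j, padY A (eι m) (eq i) (er j) = A m i j := by
    intro A m i j
    exact hinjY.extend_apply (fun t : ι' × q' × r' => A t.1 t.2.1 t.2.2) 0 (m, i, j)
  have hX0 : ∀ A m i j, j ∉ Set.range eq → padX A m i j = 0 := by
    intro A m i j hj
    have hne : ¬ ∃ t : ι' × p' × q', (eι t.1, ep t.2.1, eq t.2.2) = (m, i, j) := by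
      rintro ⟨t, ht⟩
      exact hj ⟨t.2.2, (Prod.mk.inj (Prod.mk.inj ht).2).2⟩
    exact Function.extend_apply' (fun t : ι' × p' × q' => A t.1 t.2.1 t.2.2)
      (0 : ι × p × q → ℂ) (m, i, j) hne
  have key := (HasRank.comp h padX padY res).mono hR
  unfold DS
  refine Eq.mpr (congrArg (fun B => HasRank B R') ?_) key
  funext A B m
  ext i j
  change (A m * B m) i j = (padX A (eι m) * padY B (eι m)) (ep i) (er j)
  rw [Matrix.mul_apply, Matrix.mul_apply]
  refine Fintype.sum_of_injective eq eq.injective _ _ ?_ ?_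
  · intro k hk
    rw [hX0 _ _ _ _ hk, zero_mul]
  · intro k
    rw [hX, hY]

theorem rc10_sum {ι₁ ι₂ p q r : Type} [Fintype q] {R₁ R₂ : ℕ} (h₁ : DS ι₁ p q r R₁)
    (h₂ : DS ι₂ p q r R₂) : DS (ι₁ ⊕ ι₂) p q r (R₁ + R₂) := by
  obtain ⟨α₁, β₁, γ₁, h₁⟩ := h₁
  obtain ⟨α₂, β₂, γ₂, h₂⟩ := h₂
  refine hasRank_of_fintype (κ := Fin R₁ ⊕ Fin R₂)
    (Sum.elim (fun k => (α₁ k).comp (LinearMap.funLeft ℂ _ Sum.inl))
      (fun k => (α₂ k).comp (LinearMap.funLeft ℂ _ Sum.inr)))
    (Sum.elim (fun k => (β₁ k).comp (LinearMap.funLeft ℂ _ Sum.inl))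
      (fun k => (β₂ k).comp (LinearMap.funLeft ℂ _ Sum.inr)))
    (Sum.elim (fun k => Sum.elim (γ₁ k) 0) (fun k => Sum.elim 0 (γ₂ k))) ?_ (by simp)
  intro x y
  rw [Fintype.sum_sum_type]
  funext m
  rcases m with m | m
  · have := congrFun (h₁ (fun m => x (Sum.inl m)) (fun m => y (Sum.inl m))) m
    simp only [Finset.sum_apply, Pi.smul_apply] at this
    simp only [Sum.elim_inl, Sum.elim_inr, Pi.add_apply, Finset.sum_apply, Pi.smul_apply,
      Pi.zero_apply, smul_zero, Finset.sum_const_zero, add_zero]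
    exact this
  · have := congrFun (h₂ (fun m => x (Sum.inr m)) (fun m => y (Sum.inr m))) m
    simp only [Finset.sum_apply, Pi.smul_apply] at this
    simp only [Sum.elim_inl, Sum.elim_inr, Pi.add_apply, Finset.sum_apply, Pi.smul_apply,
      Pi.zero_apply, smul_zero, Finset.sum_const_zero, zero_add]
    exact this

theorem rc10_copies {ι p q r : Type} [Fintype q] {R : ℕ} (h : DS ι p q r R) (K : ℕ) :
    DS (Fin K × ι) p q r (K * R) := by
  obtain ⟨α, β, γ, h⟩ := h
  refine hasRank_of_fintype (κ := Fin K × Fin R)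
    (fun k => (α k.2).comp (LinearMap.funLeft ℂ _ (fun m => (k.1, m))))
    (fun k => (β k.2).comp (LinearMap.funLeft ℂ _ (fun m => (k.1, m))))
    (fun k m => if m.1 = k.1 then γ k.2 m.2 else 0) ?_ (by simp)
  intro x y
  rw [Fintype.sum_prod_type]
  funext m
  obtain ⟨a, m⟩ := m
  have := congrFun (h (fun m => x (a, m)) (fun m => y (a, m))) m
  simp only [Finset.sum_apply, Pi.smul_apply] at this
  simp only [Finset.sum_apply, Pi.smul_apply]
  rw [Finset.sum_eq_single a]
  · simp only [if_true, LinearMap.comp_apply]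
    exact this
  · intro b _ hb
    simp [Ne.symm hb]
  · simp

theorem rc10_cols {ι p q r₁ r₂ : Type} [Fintype q] {R₁ R₂ : ℕ} (h₁ : DS ι p q r₁ R₁)
    (h₂ : DS ι p q r₂ R₂) : DS ι p q (r₁ ⊕ r₂) (R₁ + R₂) := by
  obtain ⟨α₁, β₁, γ₁, h₁⟩ := h₁
  obtain ⟨α₂, β₂, γ₂, h₂⟩ := h₂
  let L₁ : (ι → Matrix q (r₁ ⊕ r₂) ℂ) →ₗ[ℂ] (ι → Matrix q r₁ ℂ) :=
    { toFun := fun A m => Matrix.of fun i j => A m i (Sum.inl j)
      map_add' := fun _ _ => rfl
      map_smul' := fun _ _ => rfl }
  let L₂ : (ι → Matrix q (r₁ ⊕ r₂) ℂ) →ₗ[ℂ] (ι → Matrix q r₂ ℂ) :=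
    { toFun := fun A m => Matrix.of fun i j => A m i (Sum.inr j)
      map_add' := fun _ _ => rfl
      map_smul' := fun _ _ => rfl }
  refine hasRank_of_fintype (κ := Fin R₁ ⊕ Fin R₂)
    (Sum.elim α₁ α₂)
    (Sum.elim (fun k => (β₁ k).comp L₁) (fun k => (β₂ k).comp L₂))
    (Sum.elim (fun k m => Matrix.of fun i => Sum.elim (γ₁ k m i) 0)
      (fun k m => Matrix.of fun i => Sum.elim 0 (γ₂ k m i))) ?_ (by simp)
  intro x y
  rw [Fintype.sum_sum_type]
  funext m
  ext i j
  rcases j with j | j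
  · have := congrFun (congrFun (congrFun (h₁ x (L₁ y)) m) i) j
    simp only [Finset.sum_apply, Pi.smul_apply, Matrix.sum_apply, Matrix.smul_apply] at this
    simp only [Pi.add_apply, Finset.sum_apply, Pi.smul_apply, Matrix.add_apply, Matrix.sum_apply,
      Matrix.smul_apply, Sum.elim_inl, Sum.elim_inr, Matrix.of_apply, Pi.zero_apply, smul_zero,
      Finset.sum_const_zero, add_zero]
    rw [Matrix.mul_apply] at this ⊢
    exact this
  · have := congrFun (congrFun (congrFun (h₂ x (L₂ y)) m) i) j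
    simp only [Finset.sum_apply, Pi.smul_apply, Matrix.sum_apply, Matrix.smul_apply] at this
    simp only [Pi.add_apply, Finset.sum_apply, Pi.smul_apply, Matrix.add_apply, Matrix.sum_apply,
      Matrix.smul_apply, Sum.elim_inl, Sum.elim_inr, Matrix.of_apply, Pi.zero_apply, smul_zero,
      Finset.sum_const_zero, zero_add]
    rw [Matrix.mul_apply] at this ⊢
    exact this

/-- the `(u, v)` slice of a family of block matrices -/
noncomputable def slice {ι p p' : Type} (u v : p') :
    (ι → Matrix (p × p') (p × p') ℂ) →ₗ[ℂ] (ι → Matrix p p ℂ) :=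
  { toFun := fun A m => Matrix.of fun i j => A m (i, u) (j, v)
    map_add' := fun _ _ => rfl
    map_smul' := fun _ _ => rfl }

/-- a linear form on families of `p × p` matrices, applied slicewise to block matrices -/
noncomputable def hatForm {ι p p' : Type} {R : ℕ} (α : Fin R → (ι → Matrix p p ℂ) →ₗ[ℂ] ℂ) :
    (ι → Matrix (p × p') (p × p') ℂ) →ₗ[ℂ] (Fin R → Matrix p' p' ℂ) :=
  { toFun := fun A k => Matrix.of fun u v => α k (slice u v A)
    map_add' := by
      intro A B
      funext k
      ext u v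
      simp
    map_smul' := by
      intro c A
      funext k
      ext u v
      simp }

theorem rc11_comp {ι p p' : Type} [Fintype p] [Fintype p'] {R R' : ℕ}
    (h : DS ι p p p R) (h' : DS (Fin R) p' p' p' R') :
    DS ι (p × p') (p × p') (p × p') R' := by
  obtain ⟨α, β, γ, h⟩ := h
  let K : (Fin R → Matrix p' p' ℂ) →ₗ[ℂ] (ι → Matrix (p × p') (p × p') ℂ) :=
    { toFun := fun A m => Matrix.of fun i l => ∑ k, γ k m i.1 l.1 * A k i.2 l.2
      map_add' := by
        intro A B
        funext m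
        ext i l
        simp [mul_add, Finset.sum_add_distrib]
      map_smul' := by
        intro c A
        funext m
        ext i l
        simp only [Matrix.of_apply, Pi.smul_apply, Matrix.smul_apply, smul_eq_mul,
          RingHom.id_apply, Finset.mul_sum]
        exact Finset.sum_congr rfl fun k _ => by ring }
  have key := HasRank.comp h' (hatForm (p' := p') α) (hatForm (p' := p') β) K
  unfold DS
  refine Eq.mpr (congrArg (fun B => HasRank B R') ?_) key
  funext A B m
  ext ⟨i, u⟩ ⟨l, v⟩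
  change (A m * B m) (i, u) (l, v) =
    ∑ k, γ k m i l * (hatForm α A k * hatForm β B k) u v
  have h1 : ∀ w : p', ∑ j, A m (i, u) (j, w) * B m (j, w) (l, v) =
      ∑ k, α k (slice u w A) * β k (slice w v B) * γ k m i l := by
    intro w
    have := congrFun (congrFun (congrFun (h (slice u w A) (slice w v B)) m) i) l
    simp only [Finset.sum_apply, Pi.smul_apply, Matrix.sum_apply, Matrix.smul_apply,
      smul_eq_mul] at this
    rw [Matrix.mul_apply] at this
    exact this
  rw [Matrix.mul_apply, Fintype.sum_prod_type, Finset.sum_comm]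
  calc ∑ w, ∑ j, A m (i, u) (j, w) * B m (j, w) (l, v)
      = ∑ w, ∑ k, α k (slice u w A) * β k (slice w v B) * γ k m i l :=
        Finset.sum_congr rfl fun w _ => h1 w
    _ = ∑ k, ∑ w, α k (slice u w A) * β k (slice w v B) * γ k m i l := Finset.sum_comm
    _ = _ := by
        refine Finset.sum_congr rfl fun k _ => ?_
        rw [Matrix.mul_apply, Finset.mul_sum]
        refine Finset.sum_congr rfl fun w _ => ?_
        simp only [hatForm, LinearMap.coe_mk, AddHom.coe_mk, Matrix.of_apply]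
        ring

end Pool.Agent.Helper63.RC
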