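import Mathlib
import Pool.Agent.Helper63.RC.Defs
import Pool.Agent.Helper63.RC.Calc
import Pool.Agent.Helper51.RC.CxUniform
import Pool.Agent.Helper51.RC.Uniform
import Pool.Agent.Helper51.RC.Ideals
import Pool.Agent.Helper31.RC.Mass
import Pool.Agent.Helper8.RC.Calculus
import Pool.Agent.Helper97.RC.Extract
import Pool.Agent.Helper4.RC.Basic12
import Pool.Agent.Helper4.RC.Heis
import Pool.Agent.Helper95.RC.SL2
import Pool.Agent.Helper4.RC.Schoenhage

set_option autoImplicit false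

namespace Pool.Agent.Helper63.RC

open Matrix Module

theorem cx_ideals {A : Type*} [Ring A] [Algebra ℂ A] [FiniteDimensional ℂ A]
    {W U : Submodule ℂ A} {r s : ℕ} (hU : finrank ℂ U ≤ r)
    (hW : finrank ℂ A ≤ finrank ℂ W + r) (h : Cx W U s) :
    ∃ I J : Submodule ℂ A, LeftClosed I ∧ LeftClosed J ∧ finrank ℂ A ≤ finrank ℂ I + 2 * r ∧
      finrank ℂ J ≤ 2 * r ∧ Cx I J (4 * s) := by
  obtain ⟨b, I, hI, hIle, hId⟩ := rc5_sup W hW
  obtain ⟨c, J, hJ, hJle, hJd⟩ := rc5_inf U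
  have h1 : Cx (W ⊔ W.map (LinearMap.mulLeft ℂ (b : A))) U (s + s) :=
    rc6_sup h (rc6_mulLeft_dom h b)
  have h2 := rc6_inf h1 (rc6_mulLeft_cod h1 c)
  exact ⟨I, J, hI, hJ, hId, by omega, rc6_mono h2 hIle hJle (by omega)⟩

section
variable {ι : Type} [Fintype ι] [DecidableEq ι] (d : ι → ℕ) [∀ i, NeZero (d i)]

theorem finrank_pi_matrix :
    finrank ℂ (Π i, Matrix (Fin (d i)) (Fin (d i)) ℂ) = ∑ i, d i ^ 2 := by
  rw [Module.finrank_pi_fintype]
  refine Finset.sum_congr rfl fun i _ => ?_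
  rw [Module.finrank_matrix]
  simp [pow_two]

theorem corner_finrank_le (I : Submodule ℂ (Π i, Matrix (Fin (d i)) (Fin (d i)) ℂ)) (i : ι) :
    finrank ℂ (corner d I i) ≤ d i := by
  -- the map y ↦ row 0 of block i is injective on the corner
  let L : (corner d I i) →ₗ[ℂ] (Fin (d i) → ℂ) :=
    { toFun := fun y => (y : Π i, Matrix (Fin (d i)) (Fin (d i)) ℂ) i 0
      map_add' := fun _ _ => rfl
      map_smul' := fun _ _ => rfl }
  have hL : Function.Injective L := by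
    rw [injective_iff_map_eq_zero]
    rintro ⟨y, hy⟩ h0
    obtain ⟨x, hx, rfl⟩ := hy
    apply Subtype.ext
    change (LinearMap.mulLeft ℂ (E d i 0 0)) x = 0
    have h0' : ((LinearMap.mulLeft ℂ (E d i 0 0)) x) i 0 = 0 := h0
    rw [LinearMap.mulLeft_apply] at h0' ⊢
    funext k
    by_cases hk : k = i
    · subst hk
      ext a b
      simp only [Pi.mul_apply, E, Pi.single_eq_same, Pi.zero_apply, Matrix.zero_apply]
      by_cases ha : a = 0
      · subst ha
        have := congrFun h0' b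
        simpa [E] using this
      · rw [Matrix.single_mul_apply_of_ne]
        exact ha
    · simp [E, Pi.single_eq_of_ne hk]
  calc finrank ℂ (corner d I i) ≤ finrank ℂ (Fin (d i) → ℂ) :=
        LinearMap.finrank_le_finrank_of_injective hL
    _ = d i := by simp

theorem bad_mass (I J : Submodule ℂ (Π i, Matrix (Fin (d i)) (Fin (d i)) ℂ))
    (hI : LeftClosed I) (hJ : LeftClosed J) {ρ : ℕ} (hId : ∑ i, d i ^ 2 ≤ finrank ℂ I + ρ)
    (hJd : finrank ℂ J ≤ ρ) :
    ∑ i with 2 * finrank ℂ (corner d I i) < d i + 2 * finrank ℂ (corner d J i), d i ^ 2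
      ≤ 4 * ρ := by
  have h1 := rc7_finrank d I hI
  have h2 := rc7_finrank d J hJ
  set p : ι → ℕ := fun i => finrank ℂ (corner d I i) with hp
  set u : ι → ℕ := fun i => finrank ℂ (corner d J i) with hu
  have hpd : ∀ i, p i ≤ d i := fun i => corner_finrank_le d I i
  have hz : (∑ i with 2 * p i < d i + 2 * u i, (d i : ℤ) ^ 2) ≤ 4 * ρ := by
    calc (∑ i with 2 * p i < d i + 2 * u i, (d i : ℤ) ^ 2)
        ≤ ∑ i with 2 * p i < d i + 2 * u i, 2 * (d i : ℤ) * (d i - p i + u i) := by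
          refine Finset.sum_le_sum fun i hi => ?_
          rw [Finset.mem_filter] at hi
          have h3 : (2 : ℤ) * p i < d i + 2 * u i := by exact_mod_cast hi.2
          have h4 : (0 : ℤ) ≤ d i := by positivity
          nlinarith
      _ ≤ ∑ i, 2 * (d i : ℤ) * (d i - p i + u i) := by
          refine Finset.sum_le_sum_of_subset_of_nonneg (Finset.filter_subset _ _) fun i _ _ => ?_
          have h3 : (p i : ℤ) ≤ d i := by exact_mod_cast hpd i
          have h4 : (0 : ℤ) ≤ d i := by positivity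
          have h5 : (0 : ℤ) ≤ u i := by positivity
          have h6 : (0 : ℤ) ≤ d i - p i + u i := by linarith
          positivity
      _ = 2 * ((∑ i, (d i : ℤ) ^ 2) - (∑ i, (d i : ℤ) * p i)) + 2 * (∑ i, (d i : ℤ) * u i) := by
          rw [← Finset.sum_sub_distrib, Finset.mul_sum, Finset.mul_sum, ← Finset.sum_add_distrib]
          refine Finset.sum_congr rfl fun i _ => ?_
          ring
      _ ≤ 4 * ρ := by
          have h3 : (∑ i, (d i : ℤ) ^ 2) ≤ (∑ i, (d i : ℤ) * p i) + ρ := by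
            have : ∑ i, d i ^ 2 ≤ (∑ i, d i * p i) + ρ := by rw [← h1]; exact hId
            exact_mod_cast this
          have h4 : (∑ i, (d i : ℤ) * u i) ≤ ρ := by
            have : (∑ i, d i * u i) ≤ ρ := by rw [← h2]; exact hJd
            exact_mod_cast this
          linarith
  exact_mod_cast hz

end

section
variable {ι : Type} [Fintype ι] [DecidableEq ι] (d : ι → ℕ) [∀ i, NeZero (d i)]

/-- equal blocks: the classes `2 ^ j ≤ d i` of good blocks give simultaneous products. -/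
theorem dyadic_bound (I J : Submodule ℂ (Π i, Matrix (Fin (d i)) (Fin (d i)) ℂ))
    (hI : LeftClosed I) (hJ : LeftClosed J) {s : ℕ} (h : Cx I J s) (T : Finset ι) (j : ℕ)
    (hj : 1 ≤ j) (hD : ∀ i ∈ T, 2 ^ j ≤ d i)
    (hm : ∀ i ∈ T, d i + 2 * finrank ℂ (corner d J i) ≤ 2 * finrank ℂ (corner d I i)) :
    (T.card : ℝ) * ((2 ^ j : ℕ) : ℝ) ^ omega ≤ 4 * s := by
  obtain ⟨k, rfl⟩ : ∃ k, j = k + 1 := ⟨j - 1, by omega⟩
  have hk : (2 : ℕ) ^ (k + 1) = 2 ^ k + 2 ^ k := by rw [pow_succ]; ring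
  have h1 : DS T (Fin (2 ^ (k + 1))) (Fin (2 ^ (k + 1))) (Fin (2 ^ k)) s :=
    rc9_extract d I J hI hJ h T _ _ hD (fun i hi => by
      have := hD i hi
      have := hm i hi
      omega)
  have h2 := rc10_cols h1 h1
  have h3 : DS T (Fin (2 ^ (k + 1))) (Fin (2 ^ (k + 1))) (Fin (2 ^ (k + 1))) (s + s) := by
    refine rc10_mono h2 ⟨Function.Embedding.refl _⟩ ⟨Function.Embedding.refl _⟩
      ⟨Function.Embedding.refl _⟩ ?_ le_rfl
    refine ⟨(Equiv.toEmbedding ?_)⟩
    exact (finCongr hk).trans finSumFinEquiv.symm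
  have h4 := rc14_schoenhage (ι := T) (D := 2 ^ (k + 1)) (by
    have : 1 ≤ 2 ^ k := Nat.one_le_two_pow
    omega) h3
  rw [Fintype.card_coe] at h4
  refine h4.trans ?_
  push_cast
  linarith

/-- the combinatorial core: from left ideals to the inequality -/
theorem core_ineq (I J : Submodule ℂ (Π i, Matrix (Fin (d i)) (Fin (d i)) ℂ))
    (hI : LeftClosed I) (hJ : LeftClosed J) {s n r D : ℕ} (h : Cx I J s)
    (hn : ∑ i, d i ^ 2 = n) (hId : n ≤ finrank ℂ I + 2 * r) (hJd : finrank ℂ J ≤ 2 * r)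
    (hr : 32 * r ≤ n) (hD : 2 ≤ D) (hmass : 2 * ∑ i with d i < D, d i ^ 2 ≤ n) :
    (n : ℝ) * ((D : ℝ) / 2) ^ (omega - 2) ≤ 64 * (Nat.log 2 n + 1) * s := by
  classical
  have hω := rc12_two_le_omega
  rcases Nat.eq_zero_or_pos n with hn0 | hn0
  · subst hn0
    simp
  set good : ι → Prop := fun i =>
    d i + 2 * finrank ℂ (corner d J i) ≤ 2 * finrank ℂ (corner d I i) with hgood
  have hbad := bad_mass d I J hI hJ (ρ := 2 * r) (by rw [hn]; exact hId) hJd
  -- the good and large blocks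
  set Gd : Finset ι := Finset.univ.filter fun i => good i ∧ D ≤ d i with hGd
  have hGdmass : n ≤ 4 * ∑ i ∈ Gd, d i ^ 2 := by
    have h1 : n ≤ (∑ i ∈ Gd, d i ^ 2) + ((∑ i with d i < D, d i ^ 2) +
        ∑ i with 2 * finrank ℂ (corner d I i) < d i + 2 * finrank ℂ (corner d J i), d i ^ 2) := by
      rw [← hn]
      have hsub : (Finset.univ : Finset ι) ⊆ Gd ∪ ((Finset.univ.filter fun i => d i < D) ∪
          (Finset.univ.filter fun i =>
            2 * finrank ℂ (corner d I i) < d i + 2 * finrank ℂ (corner d J i))) := by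
        intro i _
        simp only [hGd, hgood, Finset.mem_union, Finset.mem_filter, Finset.mem_univ, true_and]
        omega
      calc ∑ i, d i ^ 2 ≤ ∑ i ∈ Gd ∪ ((Finset.univ.filter fun i => d i < D) ∪
          (Finset.univ.filter fun i =>
            2 * finrank ℂ (corner d I i) < d i + 2 * finrank ℂ (corner d J i))), d i ^ 2 :=
            Finset.sum_le_sum_of_subset hsub
        _ ≤ _ := by
            have hu : ∀ s t : Finset ι, ∑ i ∈ s ∪ t, d i ^ 2 ≤
                ∑ i ∈ s, d i ^ 2 + ∑ i ∈ t, d i ^ 2 := by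
              intro s t
              have := Finset.sum_union_inter (s₁ := s) (s₂ := t) (f := fun i => d i ^ 2)
              omega
            exact (hu _ _).trans (Nat.add_le_add_left (hu _ _) _)
    omega
  -- dyadic pigeonhole
  set L : ℕ := Nat.log 2 n + 1 with hL
  have hdn : ∀ i, d i ≤ n := by
    intro i
    have h1 : d i ^ 2 ≤ n := by
      rw [← hn]
      exact Finset.single_le_sum (f := fun i => d i ^ 2) (fun _ _ => Nat.zero_le _)
        (Finset.mem_univ i)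
    have h2 : d i ≤ d i ^ 2 := Nat.le_self_pow (by norm_num) _
    omega
  have hmaps : ∀ i ∈ Gd, Nat.log 2 (d i) ∈ Finset.range L := by
    intro i _
    rw [Finset.mem_range, hL]
    exact Nat.lt_succ_of_le (Nat.log_mono_right (hdn i))
  obtain ⟨j, hjL, hj⟩ : ∃ j ∈ Finset.range L,
      n ≤ L * (4 * ∑ i ∈ Gd with Nat.log 2 (d i) = j, d i ^ 2) := by
    by_contra hcon
    push Not at hcon
    have h1 : ∑ j ∈ Finset.range L, (L * (4 * ∑ i ∈ Gd with Nat.log 2 (d i) = j, d i ^ 2)) <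
        ∑ j ∈ Finset.range L, n :=
      Finset.sum_lt_sum_of_nonempty ⟨0, by simp [hL]⟩ hcon
    rw [Finset.sum_const, Finset.card_range, ← Finset.mul_sum, ← Finset.mul_sum,
      Finset.sum_fiberwise_of_maps_to hmaps, smul_eq_mul] at h1
    have h2 : L * n ≤ L * (4 * ∑ i ∈ Gd, d i ^ 2) := Nat.mul_le_mul_left _ hGdmass
    omega
  set T : Finset ι := Gd.filter fun i => Nat.log 2 (d i) = j with hT
  have hTne : T.Nonempty := by
    rw [Finset.nonempty_iff_ne_empty]
    intro h0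
    rw [h0] at hj
    simp at hj
    omega
  have hTd : ∀ i ∈ T, 2 ^ j ≤ d i ∧ d i < 2 ^ (j + 1) ∧ D ≤ d i ∧ good i := by
    intro i hi
    rw [hT, Finset.mem_filter, hGd, Finset.mem_filter] at hi
    obtain ⟨⟨-, hg, hDi⟩, hlog⟩ := hi
    refine ⟨?_, ?_, hDi, hg⟩
    · rw [← hlog]
      exact Nat.pow_log_le_self 2 (NeZero.ne _)
    · rw [← hlog]
      exact Nat.lt_pow_succ_log_self (by norm_num) _
  obtain ⟨i₀, hi₀⟩ := hTne
  have hD2 : D < 2 ^ (j + 1) := lt_of_le_of_lt (hTd i₀ hi₀).2.2.1 (hTd i₀ hi₀).2.1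
  have hj1 : 1 ≤ j := by
    by_contra h0
    have : j = 0 := by omega
    rw [this] at hD2
    norm_num at hD2
    omega
  have hbound := dyadic_bound d I J hI hJ h T j hj1 (fun i hi => (hTd i hi).1)
    (fun i hi => (hTd i hi).2.2.2)
  -- the mass of T
  have hTm : n ≤ 16 * L * (T.card * (2 ^ j) ^ 2) := by
    have h1 : ∑ i ∈ T, d i ^ 2 ≤ T.card * (4 * (2 ^ j) ^ 2) := by
      rw [← smul_eq_mul, ← Finset.sum_const]
      refine Finset.sum_le_sum fun i hi => ?_
      have h2 : d i ≤ 2 * 2 ^ j := by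
        have := (hTd i hi).2.1
        rw [pow_succ] at this
        omega
      calc d i ^ 2 ≤ (2 * 2 ^ j) ^ 2 := Nat.pow_le_pow_left h2 2
        _ = 4 * (2 ^ j) ^ 2 := by ring
    calc n ≤ L * (4 * ∑ i ∈ T, d i ^ 2) := hj
      _ ≤ L * (4 * (T.card * (4 * (2 ^ j) ^ 2))) := by gcongr
      _ = 16 * L * (T.card * (2 ^ j) ^ 2) := by ring
  have hTmR : (n : ℝ) ≤ 16 * L * (T.card * ((2 ^ j : ℕ) : ℝ) ^ 2) := by exact_mod_cast hTm
  have hpos : (0 : ℝ) < ((2 ^ j : ℕ) : ℝ) := by positivity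
  have h5 : ((D : ℝ) / 2) ^ (omega - 2) ≤ ((2 ^ j : ℕ) : ℝ) ^ (omega - 2) := by
    apply Real.rpow_le_rpow (by positivity) _ (by linarith)
    have : (D : ℝ) ≤ 2 ^ (j + 1) := by exact_mod_cast hD2.le
    push_cast
    rw [pow_succ] at this
    linarith
  have h6 : ((2 ^ j : ℕ) : ℝ) ^ 2 * ((2 ^ j : ℕ) : ℝ) ^ (omega - 2) =
      ((2 ^ j : ℕ) : ℝ) ^ omega := by
    rw [← Real.rpow_natCast (((2 ^ j : ℕ) : ℝ)) 2, ← Real.rpow_add hpos]
    congr 1
    push_cast
    ring
  calc (n : ℝ) * ((D : ℝ) / 2) ^ (omega - 2)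
      ≤ (16 * L * (T.card * ((2 ^ j : ℕ) : ℝ) ^ 2)) * ((2 ^ j : ℕ) : ℝ) ^ (omega - 2) := by
        gcongr
    _ = 16 * L * (T.card * (((2 ^ j : ℕ) : ℝ) ^ 2 * ((2 ^ j : ℕ) : ℝ) ^ (omega - 2))) := by ring
    _ = 16 * L * (T.card * ((2 ^ j : ℕ) : ℝ) ^ omega) := by rw [h6]
    _ ≤ 16 * L * (4 * s) := by gcongr
    _ = 64 * (Nat.log 2 n + 1) * s := by rw [hL]; push_cast; ring

end

section
variable {G : Type} [Group G] [Fintype G]

/-- the coefficient vector as a linear equivalence -/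
noncomputable def coeffLE (G : Type) [Group G] [Fintype G] :
    MonoidAlgebra ℂ G ≃ₗ[ℂ] (G → ℂ) :=
  { toFun := fun x g => x.coeff g
    invFun := fun v => MonoidAlgebra.ofCoeff (Finsupp.equivFunOnFinite.symm v)
    map_add' := fun x y => by ext g; simp
    map_smul' := fun c x => by ext g; simp
    left_inv := fun x => by ext g; simp
    right_inv := fun v => by ext g; simp }

theorem finrank_groupAlgebra : finrank ℂ (MonoidAlgebra ℂ G) = Fintype.card G := by
  rw [(coeffLE G).finrank_eq, Module.finrank_fintype_fun_eq_card]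

instance finite_groupAlgebra : Module.Finite ℂ (MonoidAlgebra ℂ G) :=
  Module.Finite.equiv (coeffLE G).symm

/-- The main inequality. -/
theorem main_ineq [DecidableEq G] {ι : Type} [Fintype ι] (d : ι → ℕ) [∀ i, NeZero (d i)]
    (Φ : MonoidAlgebra ℂ G ≃ₐ[ℂ] Π i, Matrix (Fin (d i)) (Fin (d i)) ℂ)
    {D : ℕ} (hD : 2 ≤ D) (hmass : 2 * ∑ i with d i < D, d i ^ 2 ≤ Fintype.card G)
    {f : G → ℂ} (hf : AlgebraicIndependent ℚ f) (S : Matrix G G ℂ)
    (hS : 32 * (gcirc f - S).rank ≤ Fintype.card G) :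
    (Fintype.card G : ℝ) * ((D : ℝ) / 2) ^ (omega - 2) ≤
      256 * (Nat.log 2 (Fintype.card G) + 1) * (Set.ncard {p : G × G | S p.1 p.2 ≠ 0} : ℕ) := by
  classical
  obtain ⟨P, Q, P', Q', S', hS', hu⟩ := rc2_uniformize hf S (le_refl (gcirc f - S).rank)
  obtain ⟨W, U, hU, hW, hc⟩ := rc3_cx_of_uniform S P Q P' Q' S' hS' hu
  rw [← finrank_groupAlgebra] at hW
  obtain ⟨I, J, hI, hJ, hId, hJd, hc4⟩ := cx_ideals hU hW hc
  have hc5 := rc6_equiv hc4 Φ
  have hn : ∑ i, d i ^ 2 = Fintype.card G := by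
    rw [← finrank_pi_matrix, ← Φ.toLinearEquiv.finrank_eq, finrank_groupAlgebra]
  have hI' : LeftClosed (I.map Φ.toLinearEquiv.toLinearMap) := by
    rintro a _ ⟨x, hx, rfl⟩
    exact ⟨Φ.symm a * x, hI _ x hx, by simp⟩
  have hJ' : LeftClosed (J.map Φ.toLinearEquiv.toLinearMap) := by
    rintro a _ ⟨x, hx, rfl⟩
    exact ⟨Φ.symm a * x, hJ _ x hx, by simp⟩
  have h := core_ineq d _ _ hI' hJ' (n := Fintype.card G) (r := (gcirc f - S).rank) (D := D)
    hc5 hn (by
      rw [LinearEquiv.finrank_map_eq, ← finrank_groupAlgebra]; exact hId)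
    (by rw [LinearEquiv.finrank_map_eq]; exact hJd) hS hD hmass
  refine h.trans (le_of_eq ?_)
  push_cast
  ring

theorem exists_wedderburn (G : Type) [Group G] [Fintype G] :
    ∃ (n : ℕ) (d : Fin n → ℕ), (∀ i, NeZero (d i)) ∧
      Nonempty (MonoidAlgebra ℂ G ≃ₐ[ℂ] Π i, Matrix (Fin (d i)) (Fin (d i)) ℂ) := by
  have : NeZero (Nat.card G : ℂ) := ⟨by
    rw [Nat.cast_ne_zero]; exact Nat.card_pos.ne'⟩
  exact IsSemisimpleRing.exists_algEquiv_pi_matrix_of_isAlgClosed ℂ (MonoidAlgebra ℂ G)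

/-- groups with an irreducible representation of large degree -/
theorem irrep_ineq [DecidableEq G] {κ : Type} [Fintype κ] [DecidableEq κ]
    (ψ : MonoidAlgebra ℂ G →ₐ[ℂ] Matrix κ κ ℂ) (hψ : Function.Surjective ψ)
    {D : ℕ} (hD : 2 ≤ D) (hD2 : D ^ 2 ≤ Fintype.card κ)
    {f : G → ℂ} (hf : AlgebraicIndependent ℚ f) (S : Matrix G G ℂ)
    (hS : 32 * (gcirc f - S).rank ≤ Fintype.card G) :
    (Fintype.card G : ℝ) * ((D : ℝ) / 2) ^ (omega - 2) ≤
      256 * (Nat.log 2 (Fintype.card G) + 1) * (Set.ncard {p : G × G | S p.1 p.2 ≠ 0} : ℕ) := by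
  obtain ⟨n, d, hd, ⟨Φ⟩⟩ := exists_wedderburn G
  exact main_ineq d Φ hD (rc15_mass d Φ ψ hψ D hD2) hf S hS

/-- groups with few conjugacy classes -/
theorem classes_ineq [DecidableEq G] {D : ℕ} (hD : 2 ≤ D)
    (hk : 2 * (Nat.card (ConjClasses G) * D ^ 2) ≤ Fintype.card G)
    {f : G → ℂ} (hf : AlgebraicIndependent ℚ f) (S : Matrix G G ℂ)
    (hS : 32 * (gcirc f - S).rank ≤ Fintype.card G) :
    (Fintype.card G : ℝ) * ((D : ℝ) / 2) ^ (omega - 2) ≤
      256 * (Nat.log 2 (Fintype.card G) + 1) * (Set.ncard {p : G × G | S p.1 p.2 ≠ 0} : ℕ) := by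
  obtain ⟨n, d, hd, ⟨Φ⟩⟩ := exists_wedderburn G
  refine main_ineq d Φ hD ?_ hf S hS
  refine le_trans (Nat.mul_le_mul_left 2 ?_) hk
  calc ∑ i with d i < D, d i ^ 2 ≤ ∑ i with d i < D, D ^ 2 :=
        Finset.sum_le_sum fun i hi => Nat.pow_le_pow_left (Finset.mem_filter.1 hi).2.le 2
    _ ≤ ∑ _i : Fin n, D ^ 2 := Finset.sum_le_sum_of_subset (Finset.filter_subset _ _)
    _ = Fintype.card (Fin n) * D ^ 2 := by simp
    _ ≤ Nat.card (ConjClasses G) * D ^ 2 := Nat.mul_le_mul_right _ (rc16_blocks d Φ)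

theorem rank_add_le' {m n : Type*} [Fintype m] [Fintype n] (A B : Matrix m n ℂ) :
    (A + B).rank ≤ A.rank + B.rank := by
  classical
  unfold Matrix.rank
  rw [Matrix.mulVecLin_add]
  refine le_trans (Submodule.finrank_mono (?_ : LinearMap.range (A.mulVecLin + B.mulVecLin) ≤
    LinearMap.range A.mulVecLin ⊔ LinearMap.range B.mulVecLin)) ?_
  · rintro _ ⟨x, rfl⟩
    exact Submodule.add_mem_sup ⟨x, rfl⟩ ⟨x, rfl⟩
  · exact Submodule.finrank_add_le_finrank_add_finrank _ _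

/-- generic functions are extremal -/
theorem generic_extremal [DecidableEq G] {f : G → ℂ} (hf : AlgebraicIndependent ℚ f)
    (S : Matrix G G ℂ) (f' : G → ℂ) :
    ∃ S' : Matrix G G ℂ, (∀ g h, S g h = 0 → S' g h = 0) ∧
      (gcirc f' - S').rank ≤ 2 * (gcirc f - S).rank := by
  classical
  obtain ⟨P, Q, P', Q', S', hS', hu⟩ := rc2_uniformize hf S (le_refl (gcirc f - S).rank)
  refine ⟨∑ a, f' a • S' a, ?_, ?_⟩
  · intro g h h0
    rw [Matrix.sum_apply]
    exact Finset.sum_eq_zero fun a _ => by simp [hS' a g h h0]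
  · have h1 : gcirc f' = ∑ a, f' a • gcirc (Pi.single a (1 : ℂ)) := by
      ext g h
      simp [gcirc, Matrix.sum_apply, Pi.single_apply]
    have h2 : gcirc f' - ∑ a, f' a • S' a =
        (∑ a, f' a • P' a) * Q + P * (∑ a, f' a • Q' a) := by
      rw [h1, ← Finset.sum_sub_distrib, Matrix.sum_mul, Matrix.mul_sum, ← Finset.sum_add_distrib]
      refine Finset.sum_congr rfl fun a _ => ?_
      rw [hu a, smul_add, smul_add, Matrix.smul_mul, Matrix.mul_smul]
      abel
    rw [h2]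
    refine (rank_add_le' _ _).trans ?_
    have h3 : ((∑ a, f' a • P' a) * Q).rank ≤ (gcirc f - S).rank :=
      (Matrix.rank_mul_le_left _ _).trans ((Matrix.rank_le_card_width _).trans (by simp))
    have h4 : (P * (∑ a, f' a • Q' a)).rank ≤ (gcirc f - S).rank :=
      (Matrix.rank_mul_le_left _ _).trans ((Matrix.rank_le_card_width _).trans (by simp))
    omega
end

end Pool.Agent.Helper63.RC
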