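import Mathlib
import Pool.Agent.Helper63.RC.Main

/-! Asymptotic consequences. -/

set_option autoImplicit false

namespace Pool.Agent.Helper63.RC

open Matrix Module Filter

/-- `M_G(f)` cannot be brought to rank `≤ ε n` by changing at most `n ^ (1 + δ)` entries. -/
def Rigid {G : Type} [Group G] [Fintype G] (f : G → ℂ) (ε δ : ℝ) : Prop :=
  ∀ S : Matrix G G ℂ,
    (Set.ncard {p : G × G | S p.1 p.2 ≠ 0} : ℝ) ≤ (Fintype.card G : ℝ) ^ (1 + δ) →
      ε * (Fintype.card G : ℝ) < ((Matrix.of (fun g h : G => f (g * h⁻¹)) - S).rank : ℝ)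

theorem exists_algInd (G : Type) [Finite G] : ∃ f : G → ℂ, AlgebraicIndependent ℚ f := by
  obtain ⟨κ, v, hv⟩ := exists_isTranscendenceBasis' ℚ ℂ
  have h1 : Infinite κ := by
    by_contra hfin
    rw [not_infinite_iff_finite] at hfin
    have h2 := IsAlgClosed.cardinal_le_max_transcendence_basis' v hv
    have h3 : Cardinal.mk ℂ ≤ Cardinal.aleph0 := by
      refine h2.trans ?_
      refine max_le (max_le ?_ ?_) le_rfl
      · exact Cardinal.mk_le_aleph0
      · exact Cardinal.mk_le_aleph0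
    have h4 := Cardinal.mk_complex
    rw [h4] at h3
    exact absurd h3 (not_le.2 Cardinal.aleph0_lt_continuum)
  obtain ⟨e⟩ : Nonempty (G ↪ κ) := by
    haveI := Fintype.ofFinite G
    exact ⟨(Fintype.equivFin G).toEmbedding.trans
      ((Fin.valEmbedding).trans (Infinite.natEmbedding κ))⟩
  exact ⟨v ∘ e, hv.1.comp e e.injective⟩

theorem asymp {a b K : ℝ} (hab : b < a) (hK : 0 ≤ K) :
    ∃ x₀ : ℕ, 1 ≤ x₀ ∧ ∀ n : ℕ, x₀ ≤ n → K * (Nat.log 2 n + 1) * (n : ℝ) ^ b < (n : ℝ) ^ a := by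
  set t : ℝ := (a - b) / 2 with ht
  have ht0 : 0 < t := by rw [ht]; linarith
  have htend : Tendsto (fun n : ℕ => (n : ℝ) ^ t) atTop atTop :=
    (tendsto_rpow_atTop ht0).comp tendsto_natCast_atTop_atTop
  obtain ⟨x₀, hx₀⟩ := eventually_atTop.1
    (htend.eventually_gt_atTop (K * (2 / t + 1)))
  refine ⟨max x₀ 1, le_max_right _ _, fun n hn => ?_⟩
  have hn1 : 1 ≤ n := le_trans (le_max_right _ _) hn
  have hn1' : (1 : ℝ) ≤ n := by exact_mod_cast hn1
  have hn0 : (0 : ℝ) < n := by linarith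
  have h1 := hx₀ n (le_trans (le_max_left _ _) hn)
  have h2 : (Nat.log 2 n : ℝ) ≤ 2 / t * (n : ℝ) ^ t := by
    have h3 : (Nat.log 2 n : ℝ) ≤ Real.logb 2 n := by
      exact_mod_cast Real.natLog_le_logb n 2
    have h4 : Real.log n ≤ (n : ℝ) ^ t / t := Real.log_le_rpow_div hn0.le ht0
    have h5 : (1 : ℝ) / 2 < Real.log 2 := by
      have := Real.log_two_gt_d9
      linarith
    have h6 : 0 ≤ Real.log n := Real.log_nonneg hn1'
    calc (Nat.log 2 n : ℝ) ≤ Real.logb 2 n := h3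
      _ = Real.log n / Real.log 2 := rfl
      _ ≤ Real.log n / (1 / 2) := by
          apply div_le_div_of_nonneg_left h6 (by norm_num) h5.le
      _ = 2 * Real.log n := by ring
      _ ≤ 2 * ((n : ℝ) ^ t / t) := by linarith
      _ = 2 / t * (n : ℝ) ^ t := by ring
  have h7 : (1 : ℝ) ≤ (n : ℝ) ^ t := Real.one_le_rpow hn1' ht0.le
  have h8 : (n : ℝ) ^ a = (n : ℝ) ^ t * (n : ℝ) ^ t * (n : ℝ) ^ b := by
    rw [← Real.rpow_add hn0, ← Real.rpow_add hn0]
    congr 1
    rw [ht]; ring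
  have hb0 : 0 < (n : ℝ) ^ b := Real.rpow_pos_of_pos hn0 b
  rw [h8]
  apply mul_lt_mul_of_pos_right _ hb0
  calc K * (Nat.log 2 n + 1) ≤ K * (2 / t * (n : ℝ) ^ t + (n : ℝ) ^ t) := by
        gcongr
    _ = K * (2 / t + 1) * (n : ℝ) ^ t := by ring
    _ < (n : ℝ) ^ t * (n : ℝ) ^ t := by
        apply mul_lt_mul_of_pos_right h1 (by linarith)

/-- the common final step -/
theorem final_step (c δ : ℝ) (hδ : δ < c * (omega - 2) / 2) :
    ∃ N : ℕ, 1 ≤ N ∧ ∀ n : ℕ, N ≤ n → ∀ D : ℕ, (n : ℝ) ^ (c / 2) ≤ 8 * D → ∀ s : ℕ,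
      (s : ℝ) ≤ (n : ℝ) ^ (1 + δ) →
      256 * (Nat.log 2 n + 1) * (s : ℝ) < (n : ℝ) * ((D : ℝ) / 2) ^ (omega - 2) := by
  have hω := rc12_two_le_omega
  set η : ℝ := omega - 2 with hη
  have hη0 : 0 ≤ η := by rw [hη]; linarith
  obtain ⟨N, hN1, hN⟩ := asymp (a := 1 + c * η / 2) (b := 1 + δ) (K := 256 * 16 ^ η)
    (by linarith) (by positivity)
  refine ⟨N, hN1, fun n hn D hD s hs => ?_⟩
  have h1 := hN n hn
  have hn1 : (1 : ℝ) ≤ n := by exact_mod_cast (le_trans hN1 hn)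
  have hn0 : (0 : ℝ) < n := by linarith
  have h2 : (n : ℝ) ^ (c * η / 2) / 16 ^ η ≤ ((D : ℝ) / 2) ^ η := by
    have h3 : ((n : ℝ) ^ (c / 2) / 16) ≤ (D : ℝ) / 2 := by linarith
    have h4 := Real.rpow_le_rpow (by positivity) h3 hη0
    rw [Real.div_rpow (by positivity) (by norm_num), ← Real.rpow_mul hn0.le] at h4
    rw [show c * η / 2 = c / 2 * η by ring]
    exact h4
  have h5 : (0 : ℝ) < 16 ^ η := by positivity
  calc 256 * (Nat.log 2 n + 1) * (s : ℝ)
      ≤ 256 * (Nat.log 2 n + 1) * (n : ℝ) ^ (1 + δ) := by gcongr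
    _ = (256 * 16 ^ η * (Nat.log 2 n + 1) * (n : ℝ) ^ (1 + δ)) / 16 ^ η := by
        field_simp
    _ < (n : ℝ) ^ (1 + c * η / 2) / 16 ^ η := by
        apply div_lt_div_of_pos_right h1 h5
    _ = (n : ℝ) * ((n : ℝ) ^ (c * η / 2) / 16 ^ η) := by
        rw [Real.rpow_add hn0, Real.rpow_one]
        ring
    _ ≤ (n : ℝ) * ((D : ℝ) / 2) ^ η := by gcongr

/-- Groups with an irreducible representation of degree `≥ n ^ c`. -/
theorem irrep_rigid (c δ : ℝ) (hc : 0 < c) (hδ : δ < c * (omega - 2) / 2) :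
    ∃ N : ℕ, ∀ (G : Type) [Group G] [Fintype G], N ≤ Fintype.card G →
      ∀ (κ : Type) [Fintype κ] [DecidableEq κ] (ψ : MonoidAlgebra ℂ G →ₐ[ℂ] Matrix κ κ ℂ),
        Function.Surjective ψ → (Fintype.card G : ℝ) ^ c ≤ Fintype.card κ →
        ∀ f : G → ℂ, AlgebraicIndependent ℚ f → Rigid f (1 / 32) δ := by
  obtain ⟨N, hN1, hN⟩ := final_step c δ hδ
  have htend : Tendsto (fun n : ℕ => (n : ℝ) ^ (c / 2)) atTop atTop :=
    (tendsto_rpow_atTop (by positivity)).comp tendsto_natCast_atTop_atTop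
  obtain ⟨N₂, hN₂⟩ := eventually_atTop.1 (htend.eventually_ge_atTop 2)
  refine ⟨max N N₂, fun G _ _ hG κ _ _ ψ hψ hκ f hf S hS => ?_⟩
  classical
  by_contra hcon
  rw [not_lt] at hcon
  set n := Fintype.card G with hn
  have hn1 : N ≤ n := le_trans (le_max_left _ _) hG
  have hn2 := hN₂ n (le_trans (le_max_right _ _) hG)
  set D : ℕ := ⌊(n : ℝ) ^ (c / 2)⌋₊ with hDdef
  have hD : 2 ≤ D := Nat.le_floor (by exact_mod_cast hn2)
  have hDle : (D : ℝ) ≤ (n : ℝ) ^ (c / 2) := Nat.floor_le (by positivity)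
  have hDge : (n : ℝ) ^ (c / 2) < D + 1 := Nat.lt_floor_add_one _
  have hD2 : D ^ 2 ≤ Fintype.card κ := by
    have h1 : (D : ℝ) ^ 2 ≤ (n : ℝ) ^ c := by
      calc (D : ℝ) ^ 2 ≤ ((n : ℝ) ^ (c / 2)) ^ 2 := by gcongr
        _ = (n : ℝ) ^ c := by
            rw [← Real.rpow_natCast, ← Real.rpow_mul (by positivity)]
            congr 1
            push_cast
            ring
    exact_mod_cast h1.trans hκ
  have hrank : 32 * (gcirc f - S).rank ≤ Fintype.card G := by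
    have h1 : ((gcirc f - S).rank : ℝ) ≤ 1 / 32 * (n : ℝ) := hcon
    have h2 : (32 : ℝ) * ((gcirc f - S).rank : ℝ) ≤ (n : ℝ) := by linarith
    exact_mod_cast h2
  have h3 := irrep_ineq ψ hψ hD hD2 hf S hrank
  have hD2' : (2 : ℝ) ≤ D := by exact_mod_cast hD
  have h4 := hN n hn1 D (by linarith) _ hS
  exact absurd h3 (not_le.2 h4)

/-- Groups with few conjugacy classes. -/
theorem classes_rigid (c δ : ℝ) (hc : 0 < c) (hδ : δ < c * (omega - 2) / 2) :
    ∃ N : ℕ, ∀ (G : Type) [Group G] [Fintype G], N ≤ Fintype.card G →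
      (Nat.card (ConjClasses G) : ℝ) ≤ (Fintype.card G : ℝ) ^ (1 - c) →
        ∀ f : G → ℂ, AlgebraicIndependent ℚ f → Rigid f (1 / 32) δ := by
  obtain ⟨N, hN1, hN⟩ := final_step c δ hδ
  have htend : Tendsto (fun n : ℕ => (n : ℝ) ^ (c / 2)) atTop atTop :=
    (tendsto_rpow_atTop (by positivity)).comp tendsto_natCast_atTop_atTop
  obtain ⟨N₂, hN₂⟩ := eventually_atTop.1 (htend.eventually_ge_atTop 4)
  refine ⟨max N N₂, fun G _ _ hG hk f hf S hS => ?_⟩
  classical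
  by_contra hcon
  rw [not_lt] at hcon
  set n := Fintype.card G with hn
  have hn1 : N ≤ n := le_trans (le_max_left _ _) hG
  have hn1' : (1 : ℝ) ≤ n := by exact_mod_cast (le_trans hN1 hn1)
  have hn0 : (0 : ℝ) < n := by linarith
  have hn2 := hN₂ n (le_trans (le_max_right _ _) hG)
  set D : ℕ := ⌊(n : ℝ) ^ (c / 2) / 2⌋₊ with hDdef
  have hD : 2 ≤ D := Nat.le_floor (by push_cast; linarith)
  have hDle : (D : ℝ) ≤ (n : ℝ) ^ (c / 2) / 2 := Nat.floor_le (by positivity)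
  have hDge : (n : ℝ) ^ (c / 2) / 2 < D + 1 := Nat.lt_floor_add_one _
  have hkD : 2 * (Nat.card (ConjClasses G) * D ^ 2) ≤ Fintype.card G := by
    have h1 : (D : ℝ) ^ 2 ≤ (n : ℝ) ^ c / 4 := by
      calc (D : ℝ) ^ 2 ≤ ((n : ℝ) ^ (c / 2) / 2) ^ 2 := by gcongr
        _ = ((n : ℝ) ^ (c / 2)) ^ 2 / 4 := by ring
        _ = (n : ℝ) ^ c / 4 := by
            rw [← Real.rpow_natCast ((n : ℝ) ^ (c / 2)) 2, ← Real.rpow_mul (by positivity)]
            congr 2
            push_cast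
            ring
    have h2 : (2 : ℝ) * ((Nat.card (ConjClasses G) : ℝ) * (D : ℝ) ^ 2) ≤ n := by
      calc (2 : ℝ) * ((Nat.card (ConjClasses G) : ℝ) * (D : ℝ) ^ 2)
          ≤ 2 * ((n : ℝ) ^ (1 - c) * ((n : ℝ) ^ c / 4)) := by gcongr
        _ = ((n : ℝ) ^ (1 - c) * (n : ℝ) ^ c) / 2 := by ring
        _ = (n : ℝ) / 2 := by
            rw [← Real.rpow_add hn0]
            norm_num
        _ ≤ n := by linarith
    exact_mod_cast h2
  have hrank : 32 * (gcirc f - S).rank ≤ Fintype.card G := by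
    have h1 : ((gcirc f - S).rank : ℝ) ≤ 1 / 32 * (n : ℝ) := hcon
    have h2 : (32 : ℝ) * ((gcirc f - S).rank : ℝ) ≤ (n : ℝ) := by linarith
    exact_mod_cast h2
  have h3 := classes_ineq hD hkD hf S hrank
  have hD2' : (2 : ℝ) ≤ D := by exact_mod_cast hD
  have h4 := hN n hn1 D (by linarith) _ hS
  exact absurd h3 (not_le.2 h4)

/-- The order of `SL(2,p)` and its number of conjugacy classes give the exponent
`(1 + ω) / 3`. -/
theorem sl2_rigid (δ : ℝ) (hδ : δ < (omega - 2) / 3) :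
    ∃ p₀ : ℕ, ∀ (p : ℕ) [Fact p.Prime], p₀ ≤ p →
      ∀ f : Matrix.SpecialLinearGroup (Fin 2) (ZMod p) → ℂ, AlgebraicIndependent ℚ f →
        Rigid f (1 / 32) δ := by
  have hω := rc12_two_le_omega
  set η : ℝ := omega - 2 with hη
  have hη0 : 0 ≤ η := by rw [hη]; linarith
  -- choose c slightly below 2/3
  obtain ⟨t, ht0, ht1, ht2⟩ : ∃ t : ℝ, 0 < t ∧ t ≤ 1 / 3 ∧ δ < (2 / 3 - t) * η / 2 := by
    have hΔ : 0 < η / 3 - δ := by linarith
    refine ⟨min (1 / 3) ((η / 3 - δ) / (η + 1)), ?_, min_le_left _ _, ?_⟩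
    · exact lt_min (by norm_num) (div_pos hΔ (by linarith))
    · have h1 : min (1 / 3) ((η / 3 - δ) / (η + 1)) * η ≤ (η / 3 - δ) := by
        calc min (1 / 3) ((η / 3 - δ) / (η + 1)) * η ≤ ((η / 3 - δ) / (η + 1)) * η := by
              gcongr; exact min_le_right _ _
          _ ≤ ((η / 3 - δ) / (η + 1)) * (η + 1) := by
              gcongr; linarith
          _ = η / 3 - δ := by field_simp
      nlinarith
  set c : ℝ := 2 / 3 - t with hc
  have hc0 : 0 < c := by rw [hc]; linarith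
  obtain ⟨N, hN⟩ := classes_rigid c δ hc0 (by rw [hc]; exact ht2)
  -- growth comparison 2p+2 ≤ (p^3/2)^(1/3+t)
  have htend : Tendsto (fun n : ℕ => (n : ℝ) ^ (3 * t)) atTop atTop :=
    (tendsto_rpow_atTop (by positivity)).comp tendsto_natCast_atTop_atTop
  obtain ⟨N₂, hN₂⟩ := eventually_atTop.1 (htend.eventually_ge_atTop 8)
  refine ⟨max (max N N₂) 2, fun p _ hp f hf => ?_⟩
  have hpN : N ≤ p := le_trans (le_trans (le_max_left _ _) (le_max_left _ _)) hp
  have hpN₂ : N₂ ≤ p := le_trans (le_trans (le_max_right _ _) (le_max_left _ _)) hp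
  have hp2 : 2 ≤ p := le_trans (le_max_right _ _) hp
  have hcard : Fintype.card (Matrix.SpecialLinearGroup (Fin 2) (ZMod p)) = p * (p ^ 2 - 1) := by
    rw [← Nat.card_eq_fintype_card]; exact rc18_sl2_card p
  have hp2' : (2 : ℝ) ≤ p := by exact_mod_cast hp2
  have hp0 : (0 : ℝ) < p := by linarith
  have hcardR : (p : ℝ) ^ 3 / 2 ≤
      (Fintype.card (Matrix.SpecialLinearGroup (Fin 2) (ZMod p)) : ℝ) := by
    rw [hcard, Nat.cast_mul, Nat.cast_sub (by nlinarith)]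
    push_cast
    nlinarith [mul_pos hp0 hp0]
  apply hN
  · rw [hcard]
    have h1 : 3 ≤ p ^ 2 - 1 := by
      have : 4 ≤ p ^ 2 := by nlinarith
      omega
    nlinarith
  · have h1 : (Nat.card (ConjClasses (Matrix.SpecialLinearGroup (Fin 2) (ZMod p))) : ℝ) ≤
        2 * p + 2 := by exact_mod_cast rc18_sl2_classes p
    refine h1.trans ?_
    have h2 : (1 : ℝ) - c = 1 / 3 + t := by rw [hc]; ring
    rw [h2]
    calc (2 : ℝ) * p + 2 ≤ 4 * p := by linarith
      _ ≤ (p : ℝ) * ((p : ℝ) ^ (3 * t) / 2) := by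
          have := hN₂ p hpN₂
          nlinarith
      _ = (p : ℝ) ^ (1 + 3 * t) / 2 := by
          rw [Real.rpow_add hp0, Real.rpow_one]; ring
      _ ≤ (p : ℝ) ^ (1 + 3 * t) / 2 ^ (1 / 3 + t) := by
          apply div_le_div_of_nonneg_left (by positivity) (by positivity)
          calc (2 : ℝ) ^ (1 / 3 + t) ≤ 2 ^ (1 : ℝ) := by
                apply Real.rpow_le_rpow_of_exponent_le (by norm_num); linarith
            _ = 2 := Real.rpow_one 2
      _ = ((p : ℝ) ^ 3 / 2) ^ (1 / 3 + t) := by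
          rw [Real.div_rpow (by positivity) (by norm_num), ← Real.rpow_natCast (p : ℝ) 3,
            ← Real.rpow_mul hp0.le]
          congr 2
          push_cast
          ring
      _ ≤ _ := by
          apply Real.rpow_le_rpow (by positivity) hcardR (by linarith)
  · exact hf

/-- Q1 has a positive answer, or the exponent of matrix multiplication is 2. -/
theorem q1_or_omega :
    (∃ ε δ : ℝ, 0 < ε ∧ 0 < δ ∧
      ∀ N : ℕ, ∃ (G : Type) (_ : Group G) (_ : Fintype G) (f : G → ℂ),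
        N ≤ Fintype.card G ∧
        ∀ S : Matrix G G ℂ,
          (Set.ncard {p : G × G | S p.1 p.2 ≠ 0} : ℝ) ≤ (Fintype.card G : ℝ) ^ (1 + δ) →
            ε * (Fintype.card G : ℝ) <
              ((Matrix.of (fun g h : G => f (g * h⁻¹)) - S).rank : ℝ)) ∨ omega = 2 := by
  by_cases hω : 2 < omega
  · left
    refine ⟨1 / 32, (omega - 2) / 12, by norm_num, by linarith, fun N => ?_⟩
    obtain ⟨N₁, hN₁⟩ := irrep_rigid (1 / 3) ((omega - 2) / 12) (by norm_num) (by linarith)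
    set M : ℕ := max (max N N₁) 1 with hM
    haveI : NeZero M := ⟨by have : 1 ≤ M := le_max_right _ _; omega⟩
    obtain ⟨G, i1, i2, hcard, ψ, hψ⟩ := rc17_heisenberg M
    obtain ⟨f, hf⟩ := exists_algInd G
    have hM1 : 1 ≤ M := le_max_right _ _
    have hMle : M ≤ M ^ 3 := Nat.le_self_pow (by norm_num) M
    refine ⟨G, i1, i2, f, ?_, ?_⟩
    · rw [hcard]
      exact le_trans (le_trans (le_max_left _ _) (le_max_left _ _)) hMle
    · refine hN₁ G ?_ (ZMod M) ψ hψ ?_ f hf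
      · rw [hcard]
        exact le_trans (le_trans (le_max_right _ _) (le_max_left _ _)) hMle
      · rw [hcard, ZMod.card]
        push_cast
        rw [← Real.rpow_natCast (M : ℝ) 3, ← Real.rpow_mul (by positivity)]
        norm_num
  · right
    exact le_antisymm (not_lt.1 hω) rc12_two_le_omega

end Pool.Agent.Helper63.RC
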